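import Pool.Agent.L0h94.RZ.DefsS

/-!
# Project RZ, second part: the square classes of a Selmer homomorphism
-/

set_option autoImplicit false

namespace Pool.Agent.L0h94.RZ

open Finset Pool.Agent.W262.RK WeierstrassCurve
open Pool.Agent.W262.SH (QB Pt act IsCoc IsCob LocTriv shaCoc cob Sha)
open Pool.Agent.TH841.SH (IsR IsX EvLoc selHom)

open scoped Classical

namespace KM

lemma eab (m b : ℤ) : IsR (EAB m b) (0 : ℚ) (m : ℚ) (b : ℚ) :=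
  ⟨rfl, by simp [EAB], rfl, by simp [EAB], by simp [EAB]⟩

lemma dec (P Q R : Prop) (h : R ↔ (P ↔ Q)) :
    decide (¬ R) = xor (decide (¬ P)) (decide (¬ Q)) := by
  by_cases h1 : P <;> by_cases h2 : Q <;> simp [h1, h2, h]

/-- the square class of one root -/
lemma chr {W : WeierstrassCurve ℚ} {a b c : ℚ} (hW : IsR W a b c) (hab : a ≠ b) (hac : a ≠ c)
    (hbc : b ≠ c) {h : (QB ≃ₐ[ℚ] QB) → Pt W QB} (h1 : IsLocallyConstant h)
    (h2 : ∀ σ, h σ + h σ = 0) (h3 : ∀ σ τ, h (σ * τ) = h σ + h τ) :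
    ∃ e : ℤ, Squarefree e ∧ ∀ s : QB, s ^ 2 = (e : QB) → ∀ σ : QB ≃ₐ[ℚ] QB,
      σ s = s ↔ IsX (W.baseChange QB) (algebraMap ℚ QB a) (h σ) := by
  have hinj : Function.Injective (algebraMap ℚ QB) := (algebraMap ℚ QB).injective
  obtain ⟨e, he, hse⟩ := Pool.Agent.TH841.SH.kum
    (fun σ => decide (¬ IsX (W.baseChange QB) (algebraMap ℚ QB a) (h σ)))
    (h1.comp (fun T => decide (¬ IsX (W.baseChange QB) (algebraMap ℚ QB a) T)))
    (fun σ τ => by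
      have key := (hW.base QB).isX_add (two_ne_zero) (hinj.ne hab) (hinj.ne hac) (hinj.ne hbc)
        (h2 σ) (h2 τ)
      rw [← h3] at key
      exact dec _ _ _ key)
  refine ⟨e, he, fun s hs σ => ?_⟩
  rw [hse s hs σ, decide_eq_false_iff_not, not_not]

/-- local points -/
lemma lsq (K : Type) [Field K] [Algebra ℚ K] [IsGalois K (AlgebraicClosure K)]
    (hK2 : (2 : K) ≠ 0) (hO2 : (2 : AlgebraicClosure K) ≠ 0) {m b : ℤ} (hm : m ≠ 0) (hb : b ≠ 0)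
    (hmb : m ≠ b) {h : (QB ≃ₐ[ℚ] QB) → Pt (EAB m b) QB} (h2 : ∀ σ, h σ + h σ = 0)
    (hl : LocTriv (EAB m b) K h)
    (hpt : ∃ x : K, x ≠ 0 ∧ x ≠ m ∧ x ≠ b ∧ IsSquare x ∧ IsSquare (x - m) ∧ IsSquare (x - b))
    {e1 e2 : ℤ} (he1 : ∀ s : QB, s ^ 2 = (e1 : QB) → ∀ σ : QB ≃ₐ[ℚ] QB,
      σ s = s ↔ IsX ((EAB m b).baseChange QB) (algebraMap ℚ QB 0) (h σ))
    (he2 : ∀ s : QB, s ^ 2 = (e2 : QB) → ∀ σ : QB ≃ₐ[ℚ] QB,
      σ s = s ↔ IsX ((EAB m b).baseChange QB) (algebraMap ℚ QB (m : ℚ)) (h σ)) :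
    LSq K m b e1 e2 := by
  obtain ⟨s1, hs1⟩ := IsAlgClosed.exists_pow_nat_eq (e1 : QB) (n := 2) (by norm_num)
  obtain ⟨s2, hs2⟩ := IsAlgClosed.exists_pow_nat_eq (e2 : QB) (n := 2) (by norm_num)
  have hm' : (0 : ℚ) ≠ (m : ℚ) := by
    intro h
    exact hm (by exact_mod_cast h.symm)
  have hb' : (0 : ℚ) ≠ (b : ℚ) := by
    intro h
    exact hb (by exact_mod_cast h.symm)
  have hmb' : (m : ℚ) ≠ (b : ℚ) := by
    intro h
    exact hmb (by exact_mod_cast h)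
  obtain ⟨x, hx0, hxm, hxb, ⟨r1, hr1⟩, ⟨r2, hr2⟩, ⟨r3, hr3⟩⟩ := hpt
  have key := Pool.Agent.TH841.SH.loc_step (K := K) (Ω := AlgebraicClosure K) hO2
    hK2 (eab m b) hm' hb' hmb' h h2 hl
    ⟨x, r1 * r2 * r3, ?_, ?_, ⟨r1, ?_⟩, ⟨r2, ?_⟩, ⟨r3, ?_⟩⟩ e1 e2 s1 s2 hs1 hs2 (he1 s1 hs1)
    (he2 s2 hs2)
  · obtain ⟨x', y', h5, h6, h7, h8⟩ := key
    simp only [map_zero, sub_zero, map_intCast] at h6 h7 h8
    exact ⟨x', y', h5, h6, h7, h8⟩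
  · have e1 : r1 ≠ 0 := by
      rintro rfl
      exact hx0 (by rw [hr1, mul_zero])
    have e2 : r2 ≠ 0 := by
      rintro rfl
      exact hxm (sub_eq_zero.1 (by rw [hr2, mul_zero]))
    have e3 : r3 ≠ 0 := by
      rintro rfl
      exact hxb (sub_eq_zero.1 (by rw [hr3, mul_zero]))
    exact mul_ne_zero (mul_ne_zero e1 e2) e3
  · simp only [map_zero, sub_zero, map_intCast]
    rw [hr2, hr3]
    linear_combination (-(r2 * r2) * (r3 * r3)) * hr1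
  · simpa using hr1
  · simpa using hr2
  · simpa using hr3

/-- squares in `ℚ_p` near 1 -/
lemma near1 (p : ℕ) [hp : Fact p.Prime] (m : ℤ) :
    (1 - (m : ℚ_[p]) * (p : ℚ_[p]) ^ 4) ≠ 0 ∧ IsSquare (1 - (m : ℚ_[p]) * (p : ℚ_[p]) ^ 4) := by
  constructor
  · intro h
    have h1 : (1 : ℤ) = m * (p : ℤ) ^ 4 := by
      have : ((1 : ℤ) : ℚ_[p]) = ((m * (p : ℤ) ^ 4 : ℤ) : ℚ_[p]) := by
        push_cast
        linear_combination h
      exact_mod_cast this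
    have h2 : (p : ℤ) ∣ 1 := by
      rw [h1]
      exact Dvd.dvd.mul_left (dvd_pow_self _ (by norm_num)) _
    have h3 := Int.natAbs_dvd_natAbs.2 h2
    simp at h3
    exact hp.out.one_lt.ne' h3
  · obtain ⟨c, hc⟩ : ∃ c : ℤ_[p], c = 1 - (m : ℤ_[p]) * (p : ℤ_[p]) ^ 4 := ⟨_, rfl⟩
    have hn : ‖(Polynomial.aeval (1 : ℤ_[p])) (Polynomial.X ^ 2 -
        Polynomial.C c : Polynomial ℤ_[p])‖ <
        ‖(Polynomial.aeval (1 : ℤ_[p])) (Polynomial.derivative (Polynomial.X ^ 2 -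
        Polynomial.C c : Polynomial ℤ_[p]))‖ ^ 2 := by
      have e1 : (Polynomial.aeval (1 : ℤ_[p])) (Polynomial.X ^ 2 -
        Polynomial.C c : Polynomial ℤ_[p]) = (m : ℤ_[p]) * (p : ℤ_[p]) ^ 4 := by
        simp [hc]
      have e2 : (Polynomial.aeval (1 : ℤ_[p])) (Polynomial.derivative (Polynomial.X ^ 2 -
        Polynomial.C c : Polynomial ℤ_[p])) = 2 := by
        simp
        norm_num
      rw [e1, e2, norm_mul, norm_pow, PadicInt.norm_p]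
      have h1 : ‖(m : ℤ_[p])‖ ≤ 1 := PadicInt.norm_le_one _
      have hp2 : (2 : ℝ) ≤ p := by exact_mod_cast hp.out.two_le
      have hp0 : (0 : ℝ) < p := by linarith
      have h3 : (1 / (p : ℝ)) ≤ ‖(2 : ℤ_[p])‖ := by
        by_cases h : p = 2
        · subst h
          have : ‖(2 : ℤ_[2])‖ = (2 : ℝ)⁻¹ := by
            have := PadicInt.norm_p (p := 2)
            simpa using this
          rw [this]
          norm_num
        · have : ‖(2 : ℤ_[p])‖ = 1 := by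
            have h5 : ‖((2 : ℕ) : ℤ_[p])‖ = 1 := by
              rw [PadicInt.norm_natCast_eq_one_iff]
              exact (Nat.coprime_primes hp.out Nat.prime_two).2 h
            simpa using h5
          rw [this, div_le_one hp0]
          linarith
      have h4 : (p : ℝ)⁻¹ ^ 4 < (1 / (p : ℝ)) ^ 2 := by
        rw [one_div]
        apply pow_lt_pow_right_of_lt_one₀ (inv_pos.2 hp0) _ (by norm_num)
        rw [inv_lt_one₀ hp0]
        linarith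
      calc ‖(m : ℤ_[p])‖ * (p : ℝ)⁻¹ ^ 4 ≤ 1 * (p : ℝ)⁻¹ ^ 4 := by gcongr
        _ < (1 / (p : ℝ)) ^ 2 := by rw [one_mul]; exact h4
        _ ≤ ‖(2 : ℤ_[p])‖ ^ 2 := by gcongr
    obtain ⟨z, hz, -⟩ := hensels_lemma hn
    refine ⟨(z : ℚ_[p]), ?_⟩
    have hz' : z ^ 2 - c = 0 := by simpa using hz
    have hz2 : (z : ℤ_[p]) * z = (1 - (m : ℤ_[p]) * (p : ℤ_[p]) ^ 4) := by
      rw [← hc]
      linear_combination hz'
    have h5 : ((z * z : ℤ_[p]) : ℚ_[p]) =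
      ((1 - (m : ℤ_[p]) * (p : ℤ_[p]) ^ 4 : ℤ_[p]) : ℚ_[p]) := by rw [hz2]
    push_cast at h5
    exact h5.symm

lemma ptp (p : ℕ) [hp : Fact p.Prime] (m b : ℤ) :
    ∃ x : ℚ_[p], x ≠ 0 ∧ x ≠ m ∧ x ≠ b ∧ IsSquare x ∧ IsSquare (x - m) ∧ IsSquare (x - b) := by
  have hp0 : (p : ℚ_[p]) ≠ 0 := by
    exact_mod_cast hp.out.ne_zero
  have key : ∀ m : ℤ, ((p : ℚ_[p])⁻¹ ^ 4 - m) ≠ 0 ∧ IsSquare ((p : ℚ_[p])⁻¹ ^ 4 - m) := by
    intro m
    obtain ⟨h1, ⟨r, hr⟩⟩ := near1 p m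
    have e : (p : ℚ_[p])⁻¹ ^ 4 - m = (p : ℚ_[p])⁻¹ ^ 4 * (1 - (m : ℚ_[p]) * (p : ℚ_[p]) ^ 4) := by
      field_simp
    refine ⟨?_, ⟨(p : ℚ_[p])⁻¹ ^ 2 * r, ?_⟩⟩
    · rw [e]
      exact mul_ne_zero (pow_ne_zero _ (inv_ne_zero hp0)) h1
    · rw [e, hr]
      ring
  refine ⟨(p : ℚ_[p])⁻¹ ^ 4, pow_ne_zero _ (inv_ne_zero hp0), sub_ne_zero.1 (key m).1,
    sub_ne_zero.1 (key b).1, ⟨(p : ℚ_[p])⁻¹ ^ 2, by ring⟩, (key m).2, (key b).2⟩

lemma ptr (m b : ℤ) :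
    ∃ x : ℝ, x ≠ 0 ∧ x ≠ m ∧ x ≠ b ∧ IsSquare x ∧ IsSquare (x - m) ∧ IsSquare (x - b) := by
  have h1 : (0 : ℝ) ≤ |(m : ℝ)| := abs_nonneg _
  have h2 : (0 : ℝ) ≤ |(b : ℝ)| := abs_nonneg _
  have h3 : (m : ℝ) ≤ |(m : ℝ)| := le_abs_self _
  have h4 : (b : ℝ) ≤ |(b : ℝ)| := le_abs_self _
  have sq : ∀ t : ℝ, 0 ≤ t → IsSquare t := fun t ht => ⟨√t, (Real.mul_self_sqrt ht).symm⟩
  refine ⟨|(m : ℝ)| + |(b : ℝ)| + 1, by positivity, ?_, ?_, sq _ (by positivity), sq _ ?_,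
    sq _ ?_⟩ <;> linarith

end KM

theorem km : S_KM := by
  intro m b hm hb hmb h hh
  obtain ⟨h1, h2, h3, h4, h5⟩ := hh
  have hm' : (0 : ℚ) ≠ (m : ℚ) := by
    intro h
    exact hm (by exact_mod_cast h.symm)
  have hb' : (0 : ℚ) ≠ (b : ℚ) := by
    intro h
    exact hb (by exact_mod_cast h.symm)
  have hmb' : (m : ℚ) ≠ (b : ℚ) := by
    intro h
    exact hmb (by exact_mod_cast h)
  obtain ⟨e1, he1, k1⟩ := KM.chr (KM.eab m b) hm' hb' hmb' h1 h2 h3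
  obtain ⟨e2, he2, k2⟩ := KM.chr (KM.eab m b).swap hm'.symm hmb' hb' h1 h2 h3
  refine ⟨e1, e2, he1, he2, ?_, ?_, ?_, ?_⟩
  · intro s hs σ
    have := k1 s hs σ
    rwa [map_zero] at this
  · intro s hs σ
    have := k2 s hs σ
    rwa [map_intCast] at this
  · intro p _
    exact KM.lsq ℚ_[p] two_ne_zero two_ne_zero hm hb hmb h2 (h4 p) (KM.ptp p m b) k1 k2
  · exact KM.lsq ℝ two_ne_zero two_ne_zero hm hb hmb h2 h5 (KM.ptr m b) k1 k2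

end Pool.Agent.L0h94.RZ
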