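import Pool.Agent.L0h94.RZ.DefsS

/-!
# Project RZ, second part: no elements of order two in `Ш`
-/

set_option autoImplicit false

namespace Pool.Agent.L0h94.RZ

open Finset Pool.Agent.W262.RK WeierstrassCurve
open Pool.Agent.W262.SH (QB Pt act IsCoc IsCob LocTriv shaCoc cob Sha)
open Pool.Agent.TH841.SH (IsR IsX EvLoc selHom)

open scoped Classical

namespace SHA

lemma eab (m b : ℤ) : IsR (EAB m b) (0 : ℚ) (m : ℚ) (b : ℚ) :=
  ⟨rfl, by simp [EAB], rfl, by simp [EAB], by simp [EAB]⟩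

/-- the data of a Selmer homomorphism -/
def Dat (o : Bool) (u b w : ℕ) (h : (QB ≃ₐ[ℚ] QB) → Pt (EAB (mo o u w) b) QB)
    (e : ℤ × ℤ × ℤ) : Prop :=
  LA o u b w e.1 e.2.1 e.2.2 ∧
    (∀ s : QB, s ^ 2 = (e.1 : QB) → ∀ σ : QB ≃ₐ[ℚ] QB,
      σ s = s ↔ IsX ((EAB (mo o u w) b).baseChange QB) 0 (h σ)) ∧
    (∀ s : QB, s ^ 2 = (e.2.1 : QB) → ∀ σ : QB ≃ₐ[ℚ] QB,
      σ s = s ↔ IsX ((EAB (mo o u w) b).baseChange QB) (mo o u w : QB) (h σ))

lemma mo_ne {u b w : ℕ} (hG : Gd u b w) (o : Bool) :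
    mo o u w ≠ 0 ∧ (b : ℤ) ≠ 0 ∧ mo o u w ≠ (b : ℤ) := by
  obtain ⟨hb, -, hu, hw⟩ := hG
  cases o <;> simp only [mo, Bool.false_eq_true, if_false, if_true] <;> omega

lemma exists_dat (hKM : S_KM) (hL2 : S_L2) (hLPQ : S_LPQ) (hLR : S_LR) {o : Bool} {u b w : ℕ}
    (hG : Gd u b w) {h : (QB ≃ₐ[ℚ] QB) → Pt (EAB (mo o u w) b) QB}
    (hh : h ∈ selHom (EAB (mo o u w) b)) : ∃ e, Dat o u b w h e := by
  obtain ⟨n1, n2, n3⟩ := mo_ne hG o
  obtain ⟨e1, e2, s1, s2, k1, k2, lp, lr⟩ := hKM (mo o u w) b n1 n2 n3 h hh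
  have h0 : ((e1 * e2 : ℤ) : ℚ) ≠ 0 := by
    exact_mod_cast mul_ne_zero s1.ne_zero s2.ne_zero
  obtain ⟨e3, r, s3, hr, h3⟩ := Pool.Agent.TH841.SH.exists_sqf _ h0
  have hsq : IsSquare (e1 * e2 * e3) := by
    have : IsSquare (((e1 * e2 * e3 : ℤ)) : ℚ) := by
      refine ⟨e3 * r, ?_⟩
      push_cast at h3 ⊢
      rw [h3]
      ring
    exact Rat.isSquare_intCast_iff.1 this
  obtain ⟨o1, o2, o3, q3⟩ := hL2 o u b w hG e1 e2 e3 s1 s2 s3 hsq (lp 2)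
  have hLP := hLPQ o u b w hG e1 e2 e3 s1 s2 s3 hsq (fun p _ _ => lp p)
  obtain ⟨r1, r2⟩ := hLR o u b w hG e1 e2 e3
    (mul_ne_zero (mul_ne_zero s1.ne_zero s2.ne_zero) s3.ne_zero) hsq lr
  exact ⟨(e1, e2, e3), ⟨s1, s2, s3, r1, r2, o1, o2, o3, q3, hLP⟩, k1, k2⟩

lemma dat_inj (hKER : S_KER) {o : Bool} {u b w : ℕ}
    (hG : Gd u b w) {h h' : (QB ≃ₐ[ℚ] QB) → Pt (EAB (mo o u w) b) QB}
    (hh : h ∈ selHom (EAB (mo o u w) b)) (hh' : h' ∈ selHom (EAB (mo o u w) b)) {e e' : ℤ × ℤ × ℤ}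
    (he : Dat o u b w h e) (he' : Dat o u b w h' e')
    (hv : vec u b w e.1 e.2.1 = vec u b w e'.1 e'.2.1) : h = h' := by
  obtain ⟨n1, n2, n3⟩ := mo_ne hG o
  have hinj : Function.Injective (algebraMap ℚ QB) := (algebraMap ℚ QB).injective
  have hm' : (0 : ℚ) ≠ (mo o u w : ℚ) := by
    intro h
    exact n1 (by exact_mod_cast h.symm)
  have hb' : (0 : ℚ) ≠ ((b : ℤ) : ℚ) := by
    intro h
    exact n2 (by exact_mod_cast h.symm)
  have hmb' : (mo o u w : ℚ) ≠ ((b : ℤ) : ℚ) := by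
    intro h
    exact n3 (by exact_mod_cast h)
  obtain ⟨a1, a2, -⟩ := (hKER o u b w hG).2 _ _ _ _ _ _ he.1 he'.1 hv
  funext σ
  obtain ⟨s1, hs1⟩ := IsAlgClosed.exists_pow_nat_eq (e.1 : QB) (n := 2) (by norm_num)
  obtain ⟨s2, hs2⟩ := IsAlgClosed.exists_pow_nat_eq (e.2.1 : QB) (n := 2) (by norm_num)
  have c1 := (he.2.1 s1 hs1 σ).symm.trans (he'.2.1 s1 (by rw [hs1, a1]) σ)
  have c2 := (he.2.2 s2 hs2 σ).symm.trans (he'.2.2 s2 (by rw [hs2, a2]) σ)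
  refine ((eab (mo o u w) b).base QB).ext two_ne_zero (hinj.ne hm') (hinj.ne hb') (hinj.ne hmb')
    (hh.2.1 σ) (hh'.2.1 σ) ?_ ?_
  · rw [map_zero]
    exact c1
  · rw [map_intCast]
    exact c2

/-- the kernel is finite -/
lemma ker_card (S : Finset ℕ) (e : ℕ → ℕ → ZMod 2) : Finite (KerE S e) ∧
    Nat.card (KerE S e) = 2 ^ Module.finrank (ZMod 2) (KerE S e) := by
  have hfin : Finite (KerE S e) := by
    apply Finite.of_injective (fun (v : KerE S e) (p : S) => (v : ℕ → ZMod 2) p)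
    intro v v' h
    apply Subtype.ext
    funext p
    by_cases hp : p ∈ S
    · exact congrFun h ⟨p, hp⟩
    · rw [v.2.1 p hp, v'.2.1 p hp]
  refine ⟨hfin, ?_⟩
  have := Module.natCard_eq_pow_finrank (K := ZMod 2) (V := KerE S e)
  rw [this, Nat.card_zmod]

end SHA

theorem sha_of (hKM : S_KM) (hL2 : S_L2) (hLPQ : S_LPQ) (hLR : S_LR) (hKER : S_KER)
    (hT4 : S_T4) (hDV : S_DV) : S_SHA := by
  intro o u b w hG hc
  obtain ⟨n1, n2, n3⟩ := SHA.mo_ne hG o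
  -- every Selmer homomorphism is a coboundary
  have hcob : ∀ h ∈ selHom (EAB (mo o u w) b), IsCob (EAB (mo o u w) b) h := by
    intro h hh
    obtain ⟨g, hg, hg2⟩ := hT4 o u b w hG
    choose E hE using fun i => SHA.exists_dat hKM hL2 hLPQ hLR hG (hg2 i).1
    obtain ⟨e, he⟩ := SHA.exists_dat hKM hL2 hLPQ hLR hG hh
    obtain ⟨hfin, hcard⟩ := SHA.ker_card (u * b * w).primeFactors (en o (clf u b) (tf u b w))
    let V : Fin 4 → KerE (u * b * w).primeFactors (en o (clf u b) (tf u b w)) := fun i =>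
      ⟨vec u b w (E i).1 (E i).2.1, (hKER o u b w hG).1 _ _ _ (hE i).1⟩
    have hV : Function.Injective V := by
      intro i j hij
      apply hg
      exact SHA.dat_inj hKER hG (hg2 i).1 (hg2 j).1 (hE i) (hE j) (congrArg Subtype.val hij)
    have hle : Nat.card (KerE (u * b * w).primeFactors (en o (clf u b) (tf u b w))) ≤
        Nat.card (Fin 4) := by
      rw [hcard, Nat.card_fin]
      calc 2 ^ Module.finrank (ZMod 2) _ ≤ 2 ^ 2 := Nat.pow_le_pow_right (by norm_num) hc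
        _ = 4 := by norm_num
    have hsurj : Function.Surjective V := by
      have := Fintype.ofFinite (KerE (u * b * w).primeFactors (en o (clf u b) (tf u b w)))
      rw [Nat.card_eq_fintype_card, Nat.card_eq_fintype_card] at hle
      have hle2 := Fintype.card_le_of_injective V hV
      exact ((Fintype.bijective_iff_injective_and_card V).2 ⟨hV, le_antisymm hle2 hle⟩).2
    obtain ⟨i, hi⟩ := hsurj ⟨vec u b w e.1 e.2.1, (hKER o u b w hG).1 _ _ _ he.1⟩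
    have : g i = h := SHA.dat_inj hKER hG (hg2 i).1 hh (hE i) he (congrArg Subtype.val hi)
    rw [← this]
    exact (hg2 i).2
  intro x hx
  obtain ⟨f, rfl⟩ := QuotientAddGroup.mk_surjective x
  rw [← QuotientAddGroup.mk_add, QuotientAddGroup.eq_zero_iff, AddSubgroup.mem_addSubgroupOf] at hx
  rw [QuotientAddGroup.eq_zero_iff, AddSubgroup.mem_addSubgroupOf]
  obtain ⟨h, hh, hfh⟩ := hDV (mo o u w) b n1 n2 n3 f.1 f.2 hx
  have h1 := Pool.Agent.W262.SH.cob_add _ hfh (hcob h hh)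
  rw [sub_add_cancel] at h1
  exact h1

end Pool.Agent.L0h94.RZ
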